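import Pool.Agent.Helper24.QTangent.Transport

/-!
# MP_27b52d_al: which reduced words of `w₀` give one-sided quantum tangent spaces

All definitions are in `Pool.Agent.Helper24.QTangent.Basic`.
-/

namespace Pool.Agent.Results.MP_27b52d_al.TangentClassification

open Pool.Agent.Helper24.QTangent
open scoped TensorProduct

theorem result (n : ℕ) (q : ℂ) (hq : q ≠ 0) (hq4 : q ^ 4 ≠ 1) :
    (∃ (U : Type) (_ : Ring U) (_ : Algebra ℂ U) (E F K L : Fin n → U)
      (Δ : U →ₐ[ℂ] U ⊗[ℂ] U) (ε : U →ₐ[ℂ] ℂ) (T : Fin n → U →ₐ[ℂ] U),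
      IsQuantumGroup q E F K L Δ ε T) ∧
    ∀ (U : Type) [Ring U] [Algebra ℂ U] (E F K L : Fin n → U)
      (Δ : U →ₐ[ℂ] U ⊗[ℂ] U) (ε : U →ₐ[ℂ] ℂ) (T : Fin n → U →ₐ[ℂ] U),
      IsQuantumGroup q E F K L Δ ε T →
      (∀ w : List (Fin n), IsW0 w →
        (RightTangent Δ ε (posPart E T w) ↔ SplitRight w) ∧
        (0 < n → ¬ LeftTangent Δ ε (posPart E T w)) ∧
        (LeftTangent Δ ε (posPartK E L T w) ↔ SplitLeft w) ∧
        (RightTangent Δ ε (posPart E T w) ∧ LeftTangent Δ ε (posPartK E L T w) ↔ OneSign w)) ∧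
      classCount (fun w => RightTangent Δ ε (posPart E T w)) = catalan n ∧
      classCount (fun w => LeftTangent Δ ε (posPartK E L T w)) = catalan n ∧
      classCount (fun w => RightTangent Δ ε (posPart E T w) ∧
        LeftTangent Δ ε (posPartK E L T w)) = if n ≤ 1 then 1 else 2 := by
  have hq2 : q ^ 2 ≠ 1 := by
    intro h
    apply hq4
    have : q ^ 4 = (q ^ 2) ^ 2 := by ring
    rw [this, h, one_pow]
  have hq4' : q ^ 2 + 1 ≠ 0 := by
    intro h
    apply hq4
    have : q ^ 4 - 1 = (q ^ 2 + 1) * (q ^ 2 - 1) := by ring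
    rw [h, zero_mul, sub_eq_zero] at this
    exact this
  constructor
  · exact ⟨U n q, inferInstance, inferInstance, E n q, F n q, K n q, L n q, comul n q hq,
      counit n q, lusztigT n q hq hq2 hq4', isUq_U, isComul_U hq, isCounit_U,
      isLusztig_U hq hq2 hq4'⟩
  · intro U _ _ E F K L Δ ε T hU
    have main : ∀ w : List (Fin n), IsW0 w →
        (RightTangent Δ ε (posPart E T w) ↔ SplitRight w) ∧
        (0 < n → ¬ LeftTangent Δ ε (posPart E T w)) ∧
        (LeftTangent Δ ε (posPartK E L T w) ↔ SplitLeft w) := fun w hw =>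
      main_model hq hq2 hq4' hU.1 hU.2.1 hU.2.2.1 hU.2.2.2 hw
    have congrCount : ∀ P Q : List (Fin n) → Prop, (∀ w, IsW0 w → (P w ↔ Q w)) →
        classCount P = classCount Q := by
      intro P Q h
      unfold classCount
      congr 1
      ext c
      constructor
      · rintro ⟨w, h1, h2⟩; exact ⟨w, h1, (h w.1 w.2).1 h2⟩
      · rintro ⟨w, h1, h2⟩; exact ⟨w, h1, (h w.1 w.2).2 h2⟩
    refine ⟨fun w hw => ?_, ?_, ?_, ?_⟩
    · obtain ⟨h1, h2, h3⟩ := main w hw
      refine ⟨h1, h2, h3, ?_⟩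
      rw [h1, h3, splitRight_iff, splitLeft_iff, split_both_iff]
      unfold Agree OneSign
      simp only [iff_true, iff_false]
    · rw [congrCount _ _ fun w hw => (main w hw).1]
      exact ncard_splitRight
    · rw [congrCount _ _ fun w hw => (main w hw).2.2]
      exact ncard_splitLeft
    · rw [congrCount _ (fun w => SplitRight w ∧ SplitLeft w) fun w hw =>
        and_congr (main w hw).1 (main w hw).2.2]
      exact ncard_both

end Pool.Agent.Results.MP_27b52d_al.TangentClassification
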